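import Pool.Agent.Helper41.FX.StK2

/-! Project FX, module C12: transport to `P0`. -/

set_option autoImplicit false

namespace Pool.Agent.Helper99.FX

open Polynomial Pool.Agent.Helper72.FX Pool.Agent.Helper72.KRF Pool.Agent.Helper41.FX

/-- a finite module which is killed by `I` is finite over a ring which is onto modulo `I` -/
private theorem fin_comp {A A' : Type} [CommRing A] [CommRing A'] (φ : A' →+* A) (I : Ideal A)
    (hs : ∀ a : A, ∃ a' : A', a - φ a' ∈ I) (N : Type) [AddCommGroup N] [Module A N]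
    [Module A' N] (hsm : ∀ (a : A') (m : N), φ a • m = a • m) (hf : Module.Finite A N)
    (hk : kil I N) : Module.Finite A' N := by
  obtain ⟨s, hs1⟩ := hf.fg_top
  refine ⟨⟨s, ?_⟩⟩
  rw [eq_top_iff]
  intro y _
  have hy : y ∈ Submodule.span A (s : Set N) := by rw [hs1]; trivial
  induction hy using Submodule.span_induction with
  | mem x hx => exact Submodule.subset_span hx
  | zero => exact Submodule.zero_mem _
  | add x z _ _ hx hz => exact Submodule.add_mem _ (hx trivial) (hz trivial)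
  | smul a x _ hx =>
    obtain ⟨a', ha'⟩ := hs a
    have h1 : a • x = a' • x := by
      have h2 := hk _ ha' x
      rw [sub_smul, hsm, sub_eq_zero] at h2
      exact h2
    rw [h1]
    exact Submodule.smul_mem _ _ (hx trivial)

private theorem quot_iso {A A' : Type} [CommRing A] [CommRing A'] (φ : A' →+* A) (I J : Ideal A)
    (J' : Ideal A') (hIJ : I ≤ J) (hs : ∀ a : A, ∃ a' : A', a - φ a' ∈ I) (hJ : J.comap φ = J')
    [Module A' (A ⧸ J)] (hsm : ∀ (a : A') (m : A ⧸ J), φ a • m = a • m) :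
    Nonempty ((A ⧸ J) ≃ₗ[A'] (A' ⧸ J')) := by
  let f : A' →ₗ[A'] (A ⧸ J) :=
    { toFun := fun a => Ideal.Quotient.mk J (φ a)
      map_add' := fun a b => by rw [map_add, map_add]
      map_smul' := fun a b => by
        rw [RingHom.id_apply, ← hsm, smul_eq_mul, map_mul, map_mul]
        rfl }
  have hsurj : Function.Surjective f := by
    intro y
    obtain ⟨a, rfl⟩ := Ideal.Quotient.mk_surjective y
    obtain ⟨a', ha'⟩ := hs a
    refine ⟨a', ?_⟩
    exact (Ideal.Quotient.eq.2 (hIJ ha')).symm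
  have hker : LinearMap.ker f = J' := by
    ext x
    rw [LinearMap.mem_ker, ← hJ, Ideal.mem_comap]
    exact Ideal.Quotient.eq_zero_iff_mem
  exact ⟨((Submodule.quotEquivOfEq _ _ hker.symm).trans (f.quotKerEquivOfSurjective hsurj)).symm⟩

private theorem e1_mem : e1 ∈ jP := by
  have h3 : v10 3 ∈ jP := Ideal.subset_span (by simp)
  have h5 : v10 5 ∈ jP := Ideal.subset_span (by simp)
  have h0 : v10 0 ∈ jP := Ideal.subset_span (by simp)
  have h1 : v10 1 ∈ jP := Ideal.subset_span (by simp)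
  have h : e1 = (2 + v10 2 * v10 1) * v10 1 + (- v10 0) * v10 0 + (- v10 4) * v10 3
      + (- v10 6) * v10 5 := by
    unfold e1 E1 nu
    ring
  rw [h]
  exact add_mem (add_mem (add_mem (Ideal.mul_mem_left _ _ h1) (Ideal.mul_mem_left _ _ h0))
    (Ideal.mul_mem_left _ _ h3)) (Ideal.mul_mem_left _ _ h5)

private theorem I_le : Ideal.span {e1, e2, ss} ≤ jP := by
  rw [Ideal.span_le]
  rintro x (rfl | rfl | rfl)
  · exact e1_mem
  · exact Ideal.subset_span (by simp)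
  · exact sub_mem (Ideal.subset_span (by simp)) (Ideal.subset_span (by simp))

private theorem c12_abs {A A' : Type} [CommRing A] [CommRing A'] (φ : A' →+* A) (I J : Ideal A)
    (I' J' : Ideal A') (p1 : I'.map φ ≤ I) (p2 : ∀ a : A, ∃ a' : A', a - φ a' ∈ I)
    (p4 : I.comap φ = I') (p5 : J.comap φ = J') (hIJ : I ≤ J) (d : A) (d' : A')
    (p3 : φ d' - d ∈ I) (ψ : AF A (kil I) (ZMod 2)) (χ : AF A' (kil I') (ZMod 2))
    (hψ : ∀ (M : Type) [AddCommGroup M] [Module A M] [Module A' M],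
      (∀ (a : A') (m : M), φ a • m = a • m) → ψ.f M = χ.f M)
    (c1 : χ.f (A' ⧸ I') = 0) (c2 : χ.f (A' ⧸ J') = 1)
    (c3 : ∀ (N : Type) [AddCommGroup N] [Module A' N], Module.Finite A' N → kil I' N →
      (∀ y : N, d' • y = 0) → χ.f N = 0) :
    ψ.f (A ⧸ I) = 0 ∧ ψ.f (A ⧸ J) = 1 ∧
      ∀ (N : Type) [AddCommGroup N] [Module A N], Module.Finite A N → kil I N →
        (∀ y : N, d • y = 0) → ψ.f N = 0 := by
  have hj9 : I' ≤ J' := by
    rw [← p4, ← p5]
    exact Ideal.comap_mono hIJ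
  refine ⟨?_, ?_, ?_⟩
  · letI : Module A' (A ⧸ I) := Module.compHom (A ⧸ I) φ
    rw [hψ (A ⧸ I) (fun _ _ => rfl), ← c1]
    obtain ⟨e⟩ := quot_iso φ I I I' le_rfl p2 p4 (fun _ _ => rfl)
    exact χ.equiv (gd_kil _) e inferInstance (kil_quot _)
  · letI : Module A' (A ⧸ J) := Module.compHom (A ⧸ J) φ
    rw [hψ (A ⧸ J) (fun _ _ => rfl), ← c2]
    obtain ⟨e⟩ := quot_iso φ I J J' hIJ p2 p5 (fun _ _ => rfl)
    exact χ.equiv (gd_kil _) e inferInstance (kil_mono hj9 (kil_quot _))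
  · intro N _ _ hf hk hD
    letI : Module A' N := Module.compHom N φ
    have hsm : ∀ (a : A') (m : N), φ a • m = a • m := fun _ _ => rfl
    rw [hψ N hsm]
    refine c3 N (fin_comp φ I p2 N hsm hf hk) ?_ ?_
    · intro x hx y
      rw [← hsm]
      exact hk _ (p1 (Ideal.mem_map_of_mem _ hx)) y
    · intro y
      rw [← hsm]
      have h1 : φ d' • y = (φ d' - d) • y + d • y := by
        rw [sub_smul, sub_add_cancel]
      rw [h1, hD, add_zero]
      exact hk _ p3 y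

private theorem ss_le : Ideal.span {ss} ≤ Ideal.span {e1, e2, ss} := by
  apply Ideal.span_mono
  intro x hx
  right
  right
  exact hx


private theorem p1 (h : StPHI) : ∀ x ∈ pid (pid ⊥ (v7 3) bsA) (C bD) bh, phi9 x ∈ Ideal.span {e1, e2, ss} :=
  fun _ hx => h.1 (Ideal.mem_map_of_mem phi9 hx)

private theorem p4 (h : StPHI) : ∀ x, phi9 x ∈ Ideal.span {e1, e2, ss} ↔ x ∈ pid (pid ⊥ (v7 3) bsA) (C bD) bh := by
  intro x
  rw [← h.2.2.2.1]
  exact Ideal.mem_comap.symm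

private theorem p5 (h : StPHI) : ∀ x, phi9 x ∈ jP ↔ x ∈ j9 := by
  intro x
  rw [← h.2.2.2.2]
  exact Ideal.mem_comap.symm

private theorem full_abs (hRES : StRES) {A A' : Type} [CommRing A] [CommRing A'] (φ : A' →+* A)
    (I J : Ideal A) (I' J' : Ideal A') (p1 : ∀ x ∈ I', φ x ∈ I)
    (p2 : ∀ a : A, ∃ a' : A', a - φ a' ∈ I)
    (p4 : ∀ x, φ x ∈ I ↔ x ∈ I') (p5 : ∀ x, φ x ∈ J ↔ x ∈ J') (hIJ : I ≤ J) (d : A) (d' : A')
    (p3 : φ d' - d ∈ I)
    (h : ∃ χ : AF A' (kil I') (ZMod 2), χ.f (A' ⧸ I') = 0 ∧ χ.f (A' ⧸ J') = 1 ∧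
      ∀ (N : Type) [AddCommGroup N] [Module A' N], Module.Finite A' N → kil I' N →
      (∀ y : N, d' • y = 0) → χ.f N = 0) :
    ∃ ψ : AF A (kil I) (ZMod 2), ψ.f (A ⧸ I) = 0 ∧ ψ.f (A ⧸ J) = 1 ∧
      ∀ (N : Type) [AddCommGroup N] [Module A N], Module.Finite A N → kil I N →
        (∀ y : N, d • y = 0) → ψ.f N = 0 := by
  obtain ⟨χG, c1, c2, c3⟩ := h
  have q1 : I'.map φ ≤ I := Ideal.map_le_iff_le_comap.2 p1
  have q4 : I.comap φ = I' := Ideal.ext p4
  have q5 : J.comap φ = J' := Ideal.ext p5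
  obtain ⟨ψ, hψ⟩ := hRES A A' φ I I' q1 p2 (ZMod 2) χG
  exact ⟨ψ, c12_abs φ I J I' J' q1 p2 q4 q5 hIJ d d' p3 ψ χG hψ c1 c2 c3⟩

theorem hC12 : StRES → StPHI → StC2 → StC12 := by
  intro hRES hPHI hC2
  exact full_abs hRES phi9 (Ideal.span {e1, e2, ss}) jP (pid (pid ⊥ (v7 3) bsA) (C bD) bh) j9
    (p1 hPHI) hPHI.2.1 (p4 hPHI) (p5 hPHI) I_le pD (C (C bD)) (ss_le hPHI.2.2.1) hC2

end Pool.Agent.Helper99.FX
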