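import Pool.Agent.Helper84.FX.StX

/-! Project FX, module WCN: from cubes to spheres. -/

set_option autoImplicit false

namespace Pool.Agent.Helper99.FX

open Set Pool.Agent.Helper84.FX Pool.Agent.Helper72.FX

private theorem bd_norm {k : ℕ} {u : Fin k → ℝ} (hu : u ∈ Bd k) :
    (fun i => 2 * u i - 1) ∈ Metric.sphere (0 : Fin k → ℝ) 1 := by
  obtain ⟨h1, i, hi⟩ := hu
  rw [mem_sphere_zero_iff_norm]
  apply le_antisymm
  · refine (pi_norm_le_iff_of_nonneg zero_le_one).2 fun j => ?_
    rw [Real.norm_eq_abs, abs_le]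
    constructor <;> linarith [(h1 j).1, (h1 j).2]
  · have h2 := norm_le_pi_norm (fun i => 2 * u i - 1) i
    have h3 : ‖2 * u i - 1‖ = 1 := by
      rcases hi with h | h
      · rw [h]; norm_num
      · rw [h]; norm_num
    calc (1 : ℝ) = ‖2 * u i - 1‖ := h3.symm
      _ ≤ _ := h2

private theorem cb_of_ball {k : ℕ} {x : Fin k → ℝ} (hx : x ∈ Metric.closedBall (0 : Fin k → ℝ) 1) :
    (fun i => (x i + 1) / 2) ∈ Cb k := by
  intro i
  rw [mem_closedBall_zero_iff] at hx
  have h1 := (norm_le_pi_norm x i).trans hx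
  rw [Real.norm_eq_abs, abs_le] at h1
  constructor <;> simp only <;> linarith [h1.1, h1.2]

private theorem bd_of_sphere {k : ℕ} {x : Fin k → ℝ} (hx : x ∈ Metric.sphere (0 : Fin k → ℝ) 1) :
    (fun i => (x i + 1) / 2) ∈ Bd k := by
  refine ⟨cb_of_ball (Metric.sphere_subset_closedBall hx), ?_⟩
  rw [mem_sphere_zero_iff_norm] at hx
  by_contra hcon
  push Not at hcon
  have h1 : ‖x‖ < 1 := by
    refine (pi_norm_lt_iff one_pos).2 fun i => ?_
    have h2 := (norm_le_pi_norm x i).trans hx.le
    rw [Real.norm_eq_abs] at h2 ⊢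
    have h3 := hcon i
    have h4 := abs_le.1 h2
    rw [abs_lt]
    constructor
    · refine lt_of_le_of_ne h4.1 fun h => h3.1 ?_
      rw [← h]; norm_num
    · refine lt_of_le_of_ne h4.2 fun h => h3.2 ?_
      rw [h]; norm_num
  exact absurd hx h1.ne

theorem hWCN : StBCX → StWCA → StWCN := by
  classical
  intro _ _ E _ Y hY k v hv
  obtain ⟨⟨y₀, hy₀⟩, -, hWE⟩ := hY
  set a : (Fin k → ℝ) → E := fun u =>
    if h : (fun i => 2 * u i - 1) ∈ Metric.sphere (0 : Fin k → ℝ) 1 then (v ⟨_, h⟩ : E) else y₀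
    with ha
  have ha1 : Mp (Bd k) Y a := by
    constructor
    · rw [continuousOn_iff_continuous_restrict]
      change Continuous (fun u : Bd k => a u.1)
      have h1 : (fun u : Bd k => a u.1) = fun u : Bd k =>
          ((v ⟨(fun i => 2 * u.1 i - 1), bd_norm u.2⟩ : Y) : E) := by
        funext u
        simp only [ha]
        rw [dif_pos (bd_norm u.2)]
      rw [h1]
      refine continuous_subtype_val.comp (hv.comp ?_)
      refine Continuous.subtype_mk ?_ _
      exact continuous_pi fun i =>
        (continuous_const.mul ((continuous_apply i).comp continuous_subtype_val)).sub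
          continuous_const
    · intro u hu
      simp only [ha]
      rw [dif_pos (bd_norm hu)]
      exact (v ⟨_, bd_norm hu⟩).2
  obtain ⟨c, H, hc1, hc2, -⟩ := hWE k a (fun _ => ()) ha1
    ⟨continuousOn_const, fun _ _ => mem_univ _⟩ (fun _ _ => rfl)
  refine ⟨fun x => ⟨c (fun i => (x.1 i + 1) / 2), hc1.2 (cb_of_ball x.2)⟩, ?_, ?_⟩
  · refine Continuous.subtype_mk ?_ _
    refine hc1.1.comp_continuous ?_ fun x => cb_of_ball x.2
    exact continuous_pi fun i =>
      (((continuous_apply i).comp continuous_subtype_val).add continuous_const).div_const 2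
  · intro x
    apply Subtype.ext
    show c (fun i => (x.1 i + 1) / 2) = (v x : E)
    rw [hc2 _ (bd_of_sphere x.2)]
    have h1 : (fun i => 2 * ((x.1 i + 1) / 2) - 1) = x.1 := by
      funext i
      ring
    have h2 : (fun i => 2 * ((fun i => (x.1 i + 1) / 2) i) - 1)
        ∈ Metric.sphere (0 : Fin k → ℝ) 1 := by
      simp only [h1]
      exact x.2
    simp only [ha]
    rw [dif_pos h2]
    congr 2
    exact Subtype.ext h1

end Pool.Agent.Helper99.FX
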